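import Pool.Agent.E8helper29.Zn.Stm

/-!
Piece 3 of project ZN: a nonnegative flat combination.
-/

set_option autoImplicit false

namespace Pool.Agent.E8helper44.Zn

open MeasureTheory Pool.Agent.E8helper29.Zn
open scoped Nat

/-- the weight -/
noncomputable def g (M : ℕ) (r : ℝ) : ℝ :=
  Real.exp (-(r ^ 2) / 2) * (1 - Real.exp (-(r ^ 2) / 2)) ^ M

theorem g_cont (M : ℕ) : Continuous (g M) := by
  unfold g
  fun_prop

theorem e_le (r : ℝ) : Real.exp (-(r ^ 2) / 2) ≤ 1 := by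
  rw [Real.exp_le_one_iff]
  nlinarith [sq_nonneg r]

theorem g_nonneg (M : ℕ) (r : ℝ) : 0 ≤ g M r := by
  unfold g
  have := e_le r
  have h2 : 0 ≤ 1 - Real.exp (-(r ^ 2) / 2) := by linarith
  positivity

theorem g_even (M : ℕ) (r : ℝ) : g M (-r) = g M r := by
  unfold g
  rw [neg_sq]

/-- the flat combination -/
noncomputable def K (M : ℕ) (t : ℝ) : ℝ := ∫ r in (0 : ℝ)..t, (t - r) * g M r

theorem K_neg (M : ℕ) (t : ℝ) : K M (-t) = K M t := by
  unfold K
  have h := intervalIntegral.integral_comp_neg (a := 0) (b := t) (fun r => (-t - r) * g M r)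
  rw [neg_zero] at h
  rw [intervalIntegral.integral_symm, ← h, ← intervalIntegral.integral_neg]
  congr 1
  funext r
  rw [g_even]
  ring

theorem kap_sub (h : Stm1) (β t : ℝ) : kap (β * t) - kap 0 =
    2 * β ^ 2 * ∫ r in (0 : ℝ)..t, (t - r) * (Real.exp (-((β * r) ^ 2) / 2) / Real.sqrt (2 * Real.pi)) := by
  rw [h.1 (β * t)]
  have h1 := intervalIntegral.mul_integral_comp_mul_left (a := 0) (b := t) (c := β)
    (f := fun s => (β * t - s) * (Real.exp (-(s ^ 2) / 2) / Real.sqrt (2 * Real.pi)))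
  rw [mul_zero] at h1
  rw [← h1]
  have h2 : ∀ r : ℝ, (β * t - β * r) * (Real.exp (-((β * r) ^ 2) / 2) / Real.sqrt (2 * Real.pi)) =
      β * ((t - r) * (Real.exp (-((β * r) ^ 2) / 2) / Real.sqrt (2 * Real.pi))) := by
    intro r
    ring
  simp only [h2]
  rw [intervalIntegral.integral_const_mul]
  ring

theorem sum_eq (h : Stm1) (M : ℕ) (t : ℝ) :
    ∑ i : Fin (M + 1), ((-1) ^ (i : ℕ) * (M.choose i : ℝ) * Real.sqrt (2 * Real.pi) / (2 * (1 + (i : ℕ)))) *
      (kap (Real.sqrt (1 + (i : ℕ)) * t) - kap 0) = K M t := by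
  have hpi : (0 : ℝ) < Real.sqrt (2 * Real.pi) := by positivity
  have h1 : ∀ i : Fin (M + 1), ((-1) ^ (i : ℕ) * (M.choose i : ℝ) * Real.sqrt (2 * Real.pi) / (2 * (1 + (i : ℕ)))) *
      (kap (Real.sqrt (1 + (i : ℕ)) * t) - kap 0) =
      ∫ r in (0 : ℝ)..t, (-1) ^ (i : ℕ) * (M.choose i : ℝ) * ((t - r) * Real.exp (-(r ^ 2) / 2) ^ ((i : ℕ) + 1)) := by
    intro i
    rw [kap_sub h, intervalIntegral.integral_const_mul, Real.sq_sqrt (by positivity)]
    have h2 : ∀ r : ℝ, (t - r) * (Real.exp (-((Real.sqrt (1 + (i : ℕ)) * r) ^ 2) / 2) / Real.sqrt (2 * Real.pi)) =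
        (Real.sqrt (2 * Real.pi))⁻¹ * ((t - r) * Real.exp (-(r ^ 2) / 2) ^ ((i : ℕ) + 1)) := by
      intro r
      have h3 : Real.exp (-((Real.sqrt (1 + (i : ℕ)) * r) ^ 2) / 2) = Real.exp (-(r ^ 2) / 2) ^ ((i : ℕ) + 1) := by
        rw [← Real.exp_nat_mul, mul_pow, Real.sq_sqrt (by positivity)]
        congr 1
        push_cast
        ring
      rw [h3]
      ring
    simp only [h2]
    rw [intervalIntegral.integral_const_mul]
    have h4 : (0 : ℝ) < 1 + (i : ℕ) := by positivity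
    field_simp
  rw [Finset.sum_congr rfl fun i _ => h1 i, ← intervalIntegral.integral_finsetSum]
  · unfold K
    congr 1
    funext r
    have h5 : g M r = ∑ i : Fin (M + 1), (-1) ^ (i : ℕ) * (M.choose i : ℝ) * Real.exp (-(r ^ 2) / 2) ^ ((i : ℕ) + 1) := by
      unfold g
      have h6 := add_pow (-Real.exp (-(r ^ 2) / 2)) 1 M
      have h7 : (1 - Real.exp (-(r ^ 2) / 2)) = -Real.exp (-(r ^ 2) / 2) + 1 := by ring
      rw [h7, h6, Finset.mul_sum, Finset.sum_range]
      refine Finset.sum_congr rfl fun i _ => ?_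
      rw [one_pow, neg_pow]
      ring
    rw [h5, Finset.mul_sum]
    refine Finset.sum_congr rfl fun i _ => ?_
    ring
  · intro i _
    apply Continuous.intervalIntegrable
    fun_prop

theorem integrand_cont (M : ℕ) (t : ℝ) : Continuous fun r => (t - r) * g M r := by
  have := g_cont M
  fun_prop

theorem K_nonneg_of {M : ℕ} {t : ℝ} (ht : 0 ≤ t) : 0 ≤ K M t := by
  unfold K
  apply intervalIntegral.integral_nonneg ht
  intro r hr
  have := g_nonneg M r
  have h2 : 0 ≤ t - r := by linarith [hr.2]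
  positivity

theorem K_abs (M : ℕ) (t : ℝ) : K M |t| = K M t := by
  rcases abs_cases t with ⟨h, _⟩ | ⟨h, _⟩
  · rw [h]
  · rw [h, K_neg]

theorem K_le {M : ℕ} {t : ℝ} (ht : 0 ≤ t) : K M t ≤ t ^ (2 * M + 2) := by
  unfold K
  have h1 : ∀ r ∈ Set.Icc (0 : ℝ) t, (t - r) * g M r ≤ t ^ (2 * M + 1) := by
    intro r hr
    have h2 : g M r ≤ t ^ (2 * M) := by
      unfold g
      have h3 := e_le r
      have h4 : 0 ≤ 1 - Real.exp (-(r ^ 2) / 2) := by linarith
      have h5 : 1 - Real.exp (-(r ^ 2) / 2) ≤ t ^ 2 := by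
        have := Real.add_one_le_exp (-(r ^ 2) / 2)
        have h6 : r ^ 2 ≤ t ^ 2 := pow_le_pow_left₀ hr.1 hr.2 2
        nlinarith [sq_nonneg r]
      calc Real.exp (-(r ^ 2) / 2) * (1 - Real.exp (-(r ^ 2) / 2)) ^ M ≤ 1 * (t ^ 2) ^ M :=
            mul_le_mul h3 (pow_le_pow_left₀ h4 h5 M) (by positivity) (by norm_num)
        _ = t ^ (2 * M) := by rw [one_mul, ← pow_mul]
    calc (t - r) * g M r ≤ t * t ^ (2 * M) :=
          mul_le_mul (by linarith [hr.1]) h2 (g_nonneg M r) ht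
      _ = t ^ (2 * M + 1) := by ring
  have h2 := intervalIntegral.integral_mono_on ht ((integrand_cont M t).intervalIntegrable 0 t)
    (continuous_const.intervalIntegrable (μ := volume) 0 t) h1
  refine h2.trans ?_
  rw [intervalIntegral.integral_const, smul_eq_mul, sub_zero]
  apply le_of_eq
  ring

/-- the constant -/
noncomputable def c0 (M : ℕ) : ℝ := Real.exp (-(1 / 2)) / 8 * (1 / 64) ^ M

theorem c0_pos (M : ℕ) : 0 < c0 M := by
  unfold c0
  positivity

theorem g_lower {M : ℕ} {m r : ℝ} (hm : 0 ≤ m) (hm1 : m ≤ 1) (h1 : m / 4 ≤ r) (h2 : r ≤ m / 2) :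
    Real.exp (-(1 / 2)) * (m ^ 2 / 64) ^ M ≤ g M r := by
  unfold g
  have hr0 : 0 ≤ r := by linarith
  have hr1 : r ≤ 1 := by linarith
  have hr2 : r ^ 2 ≤ 1 := by nlinarith
  have e1 : Real.exp (-(1 / 2)) ≤ Real.exp (-(r ^ 2) / 2) := by
    apply Real.exp_le_exp.2
    linarith
  have e2 : m ^ 2 / 64 ≤ 1 - Real.exp (-(r ^ 2) / 2) := by
    have h3 : m ^ 2 / 16 ≤ r ^ 2 := by nlinarith
    -- 1 - exp (-y) ≥ y / 2 for 0 ≤ y ≤ 1
    have h4 : (1 + r ^ 2 / 2) * Real.exp (-(r ^ 2) / 2) ≤ 1 := by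
      have h5 := Real.add_one_le_exp (r ^ 2 / 2)
      have h6 : Real.exp (r ^ 2 / 2) * Real.exp (-(r ^ 2) / 2) = 1 := by
        rw [← Real.exp_add]
        have : r ^ 2 / 2 + -(r ^ 2) / 2 = 0 := by ring
        rw [this, Real.exp_zero]
      have h7 := Real.exp_pos (-(r ^ 2) / 2)
      nlinarith
    have h8 : Real.exp (-(r ^ 2) / 2) ≤ 1 - r ^ 2 / 4 := by
      have h9 : (0 : ℝ) < 1 + r ^ 2 / 2 := by positivity
      rw [← mul_le_mul_iff_right₀ h9]
      refine h4.trans ?_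
      nlinarith [sq_nonneg r]
    linarith
  apply mul_le_mul e1 _ (by positivity) (Real.exp_pos _).le
  exact pow_le_pow_left₀ (by positivity) e2 M

theorem K_lower {M : ℕ} {t m : ℝ} (hm : 0 ≤ m) (hm1 : m ≤ 1) (hmt : m ≤ t) :
    c0 M * (t * m * (m ^ 2) ^ M) ≤ K M t := by
  have ht : 0 ≤ t := hm.trans hmt
  have hc := integrand_cont M t
  have hi : ∀ a b : ℝ, IntervalIntegrable (fun r => (t - r) * g M r) volume a b :=
    fun a b => hc.intervalIntegrable a b
  have hpos : ∀ a b : ℝ, a ≤ b → b ≤ t → 0 ≤ ∫ r in a..b, (t - r) * g M r := by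
    intro a b hab hbt
    apply intervalIntegral.integral_nonneg hab
    intro r hr
    have := g_nonneg M r
    have h2 : 0 ≤ t - r := by linarith [hr.2]
    positivity
  have hsplit : K M t = (∫ r in (0 : ℝ)..(m / 4), (t - r) * g M r) +
      (∫ r in (m / 4)..(m / 2), (t - r) * g M r) + ∫ r in (m / 2)..t, (t - r) * g M r := by
    unfold K
    rw [intervalIntegral.integral_add_adjacent_intervals (hi _ _) (hi _ _),
      intervalIntegral.integral_add_adjacent_intervals (hi _ _) (hi _ _)]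
  have hmid : c0 M * (t * m * (m ^ 2) ^ M) ≤ ∫ r in (m / 4)..(m / 2), (t - r) * g M r := by
    have h1 : ∀ r ∈ Set.Icc (m / 4) (m / 2),
        t / 2 * (Real.exp (-(1 / 2)) * (m ^ 2 / 64) ^ M) ≤ (t - r) * g M r := by
      intro r hr
      apply mul_le_mul _ (g_lower hm hm1 hr.1 hr.2) (by positivity) (by linarith [hr.2])
      linarith [hr.2]
    have h2 := intervalIntegral.integral_mono_on (by linarith : m / 4 ≤ m / 2)
      (continuous_const.intervalIntegrable (μ := volume) _ _) (hi _ _) h1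
    refine le_trans (le_of_eq ?_) h2
    rw [intervalIntegral.integral_const, smul_eq_mul]
    unfold c0
    simp only [div_pow, one_pow]
    ring
  have h3 := hpos 0 (m / 4) (by positivity) (by linarith)
  have h4 := hpos (m / 2) t (by linarith) le_rfl
  rw [hsplit]
  linarith

theorem p3 (h : Stm1) : Stm3 := by
  intro M
  refine ⟨fun i => ((-1) ^ (i : ℕ) * (M.choose i : ℝ) * Real.sqrt (2 * Real.pi) / (2 * (1 + (i : ℕ)))),
    fun i => Real.sqrt (1 + (i : ℕ)), c0 M, 1, c0_pos M, by norm_num, fun i => Real.sqrt_nonneg _,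
    ?_, ?_, ?_, ?_⟩
  · intro t
    rw [sum_eq h, ← K_abs]
    exact K_nonneg_of (abs_nonneg t)
  · intro t
    rw [sum_eq h, ← K_abs, one_mul]
    refine (K_le (abs_nonneg t)).trans (le_of_eq ?_)
    exact Even.pow_abs (by exact ⟨M + 1, by ring⟩) t
  · intro t ht
    rw [sum_eq h, ← K_abs]
    refine le_trans (le_of_eq ?_) (K_lower (M := M) (abs_nonneg t) ht le_rfl)
    have e : t ^ (2 * M + 2) = |t| ^ (2 * M + 2) := (Even.pow_abs (by exact ⟨M + 1, by ring⟩) t).symm
    rw [e, ← pow_mul]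
    ring
  · intro t ht
    rw [sum_eq h, ← K_abs]
    refine le_trans (le_of_eq ?_) (K_lower (M := M) (m := 1) (by norm_num) le_rfl ht)
    simp

end Pool.Agent.E8helper44.Zn
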